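import Pool.Agent.Helper484.Crit.FN
import Pool.Agent.Helper484.Crit.FS
import Pool.Agent.Helper484.Crit.FP
import Pool.Agent.Helper484.Crit.FQ

set_option autoImplicit false

open MeasureTheory Set Filter Topology
open scoped ENNReal Pointwise

namespace Pool.Agent.Results.MP_eb03ca_co.MaxCriticalRadius

/-- A convex domain: a compact convex subset of the plane with nonempty interior. -/
def ConvexDomain (K : Set (ℝ × ℝ)) : Prop :=
  IsCompact K ∧ Convex ℝ K ∧ (interior K).Nonempty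

/-- `D` is covered by `n` translates of `K`. -/
def Covered (K : Set (ℝ × ℝ)) (n : ℕ) (D : Set (ℝ × ℝ)) : Prop :=
  ∃ x : Fin n → ℝ × ℝ, D ⊆ ⋃ i, (fun z => x i + z) '' K

/-- `M_n(K, θ)`: the supremum of the area of `D + θ K` over the compact convex sets `D` covered
by `n` translates of `K`. -/
noncomputable def Mn (K : Set (ℝ × ℝ)) (θ : ℝ) (n : ℕ) : ℝ≥0∞ :=
  ⨆ D ∈ {D : Set (ℝ × ℝ) | IsCompact D ∧ Convex ℝ D ∧ Covered K n D}, volume (D + θ • K)

/-- `T` is the parametric covering density `Θ(K, θ) = lim M_n(K, θ) / n`. -/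
def IsTheta (K : Set (ℝ × ℝ)) (θ : ℝ) (T : ℝ≥0∞) : Prop :=
  Tendsto (fun n : ℕ => Mn K θ n / n) atTop (𝓝 T)

/-- `c` is the critical radius `θ_c(K) = max {θ ≥ 0 : Θ(K, θ) = Θ(K, 0)}`. -/
def IsCriticalRadius (K : Set (ℝ × ℝ)) (c : ℝ) : Prop :=
  IsGreatest {θ : ℝ | 0 ≤ θ ∧ ∃ T : ℝ≥0∞, IsTheta K θ T ∧ IsTheta K 0 T} c

/-- An affine image of the regular hexagon. -/
def hexagon : Set (ℝ × ℝ) := {z | |z.1| ≤ 1 ∧ |z.2| ≤ 1 ∧ |z.1 - z.2| ≤ 1}

open Pool.Agent.Helper484.Crit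

lemma covered_iff {K : Set (ℝ × ℝ)} {n : ℕ} {D : Set (ℝ × ℝ)} :
    Covered K n D ↔ CoveredBy K n D := by
  constructor
  · rintro ⟨x, hx⟩
    refine ⟨x, fun z hz => ?_⟩
    obtain ⟨i, k, hk, hkz⟩ := mem_iUnion.1 (hx hz)
    refine ⟨i, ?_⟩
    have : z - x i = k := by rw [← hkz]; simp
    rw [this]; exact hk
  · rintro ⟨x, hx⟩
    refine ⟨x, fun z hz => ?_⟩
    obtain ⟨i, hi⟩ := hx z hz
    exact mem_iUnion.2 ⟨i, z - x i, hi, by simp⟩

lemma le_Mn {K : Set (ℝ × ℝ)} {θ : ℝ} {n : ℕ} {D : Set (ℝ × ℝ)} (h1 : IsCompact D)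
    (h2 : Convex ℝ D) (h3 : CoveredBy K n D) : volume (D + θ • K) ≤ Mn K θ n :=
  le_iSup₂ (f := fun D (_ : D ∈ {D : Set (ℝ × ℝ) | IsCompact D ∧ Convex ℝ D ∧ Covered K n D}) =>
    volume (D + θ • K)) D ⟨h1, h2, covered_iff.2 h3⟩

lemma Mn_le {K : Set (ℝ × ℝ)} {θ : ℝ} {n : ℕ} {b : ℝ≥0∞}
    (h : ∀ D : Set (ℝ × ℝ), IsCompact D → Convex ℝ D → CoveredBy K n D →
      volume (D + θ • K) ≤ b) : Mn K θ n ≤ b :=
  iSup₂_le (fun D hD => h D hD.1 hD.2.1 (covered_iff.1 hD.2.2))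

lemma div_le_of {a : ℝ≥0∞} {b : ℝ} {n : ℕ} (hn : 1 ≤ n) (hb : 0 ≤ b)
    (h : a ≤ ENNReal.ofReal (b * n)) : a / n ≤ ENNReal.ofReal b := by
  have hn0 : (n : ℝ≥0∞) ≠ 0 := by
    simp only [ne_eq, Nat.cast_eq_zero]; omega
  rw [ENNReal.div_le_iff hn0 (ENNReal.natCast_ne_top n)]
  refine h.trans (le_of_eq ?_)
  rw [ENNReal.ofReal_mul hb, ENNReal.ofReal_natCast]

lemma le_div_of {a : ℝ≥0∞} {b : ℝ} {n : ℕ} (hn : 1 ≤ n) (hb : 0 ≤ b)
    (h : ENNReal.ofReal (b * n) ≤ a) : ENNReal.ofReal b ≤ a / n := by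
  have hn0 : (n : ℝ≥0∞) ≠ 0 := by
    simp only [ne_eq, Nat.cast_eq_zero]; omega
  rw [ENNReal.le_div_iff_mul_le (Or.inl hn0) (Or.inl (ENNReal.natCast_ne_top n))]
  refine le_trans (le_of_eq ?_) h
  rw [ENNReal.ofReal_mul hb, ENNReal.ofReal_natCast]

/-- Upper bound at `θ = 0`. -/
lemma limsup_le {K : Set (ℝ × ℝ)} (hK : ConvexDomain K) {G : ℝ} (hG : HG K G) (hG0 : 0 ≤ G) :
    limsup (fun n : ℕ => Mn K 0 n / n) atTop ≤ ENNReal.ofReal G := by
  obtain ⟨hKc, hKv, z0, hz0⟩ := hK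
  -- translate
  set K0 : Set (ℝ × ℝ) := (fun z => z - z0) '' K with hK0
  have hmem : ∀ z, z ∈ K0 ↔ z + z0 ∈ K := by
    intro z
    rw [hK0]
    constructor
    · rintro ⟨y, hy, rfl⟩; simpa using hy
    · intro h; exact ⟨z + z0, h, by simp⟩
  have h1 : IsCompact K0 := hKc.image (by fun_prop)
  have h2 : Convex ℝ K0 := by
    intro x hx y hy a b ha hb hab
    rw [hmem] at hx hy ⊢
    have := hKv hx hy ha hb hab
    have e : a • x + b • y + z0 = a • (x + z0) + b • (y + z0) := by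
      have : z0 = a • z0 + b • z0 := by rw [← add_smul, hab, one_smul]
      calc a • x + b • y + z0 = a • x + b • y + (a • z0 + b • z0) := by rw [← this]
        _ = a • (x + z0) + b • (y + z0) := by rw [smul_add, smul_add]; abel
    rw [e]; exact this
  have h3 : (0 : ℝ × ℝ) ∈ interior K0 := by
    rw [mem_interior_iff_mem_nhds] at hz0 ⊢
    have hc : ContinuousAt (fun z : ℝ × ℝ => z + z0) 0 := by fun_prop
    have h4 : (fun z : ℝ × ℝ => z + z0) ⁻¹' K ∈ 𝓝 (0 : ℝ × ℝ) := by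
      apply hc
      simpa using hz0
    have e : (fun z : ℝ × ℝ => z + z0) ⁻¹' K = K0 := by
      ext z; rw [mem_preimage, hmem]
    rwa [e] at h4
  have hG' : HG K0 G := by
    intro k d e κ κ' a1 a2 a3 a4 a5 a6
    rw [hmem] at a1 a2 a3 a4 a5 a6
    have := hG (k + z0) d e (κ + z0) (κ' + z0) a1
      (by rw [show k + z0 + d = k + d + z0 by abel]; exact a2)
      (by rw [show k + z0 + e = k + e + z0 by abel]; exact a3)
      (by rw [show k + z0 + d + e = k + d + e + z0 by abel]; exact a4) a5 a6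
    rwa [add_sub_add_right_eq_sub] at this
  have hKne : K.Nonempty := ⟨z0, interior_subset hz0⟩
  refine ENNReal.le_of_forall_pos_le_add ?_
  intro ε hε _
  obtain ⟨n0, hn0⟩ := FQ.gen_upper K0 h1 h2 h3 G hG' ε (by exact_mod_cast hε)
  have hev : ∀ᶠ n : ℕ in atTop, Mn K 0 n / n ≤ ENNReal.ofReal (G + ε) := by
    filter_upwards [eventually_ge_atTop (max n0 1)] with n hn
    have hn1 : n0 ≤ n := le_trans (le_max_left _ _) hn
    have hn2 : 1 ≤ n := le_trans (le_max_right _ _) hn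
    apply div_le_of hn2 (by positivity)
    apply Mn_le
    intro D hD1 hD2 ⟨x, hx⟩
    have e : D + (0 : ℝ) • K = D := by
      rw [Set.zero_smul_set hKne, add_zero]
    rw [e]
    apply hn0 n hn1 D hD1 hD2
    refine ⟨fun i => x i + z0, fun z hz => ?_⟩
    obtain ⟨i, hi⟩ := hx z hz
    refine ⟨i, ?_⟩
    rw [hmem]
    have : z - (x i + z0) + z0 = z - x i := by abel
    rw [this]; exact hi
  calc limsup (fun n : ℕ => Mn K 0 n / n) atTop ≤ ENNReal.ofReal (G + ε) :=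
        limsup_le_of_le (by isBoundedDefault) hev
    _ = ENNReal.ofReal G + ε := by
        rw [ENNReal.ofReal_add hG0 ε.coe_nonneg, ENNReal.ofReal_coe_nnreal]

/-- The optimal constant. -/
lemma exists_G {K : Set (ℝ × ℝ)} (hK : ConvexDomain K) :
    ∃ G : ℝ, 0 < G ∧ HG K G ∧ ∀ G' < G, ∃ k d e κ κ' : ℝ × ℝ, k ∈ K ∧ k + d ∈ K ∧ k + e ∈ K ∧
      k + d + e ∈ K ∧ κ ∈ K ∧ κ' ∈ K ∧ G' < |cr d e| + |cr d (κ - κ')| / 4 := by
  obtain ⟨hKc, hKv, z0, hz0⟩ := hK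
  set S : Set ℝ := {x | ∃ k d e κ κ' : ℝ × ℝ, k ∈ K ∧ k + d ∈ K ∧ k + e ∈ K ∧
      k + d + e ∈ K ∧ κ ∈ K ∧ κ' ∈ K ∧ x = |cr d e| + |cr d (κ - κ')| / 4} with hS
  obtain ⟨C, hC⟩ := hKc.isBounded.exists_norm_le
  have hcr : ∀ x y : ℝ × ℝ, |cr x y| ≤ 2 * ‖x‖ * ‖y‖ := FS.abs_cr_le
  have hC0 : 0 ≤ C := (norm_nonneg _).trans (hC z0 (interior_subset hz0))
  have hbdd : BddAbove S := by
    refine ⟨2 * (2 * C) * (2 * C) + 2 * (2 * C) * (2 * C) / 4, ?_⟩
    rintro x ⟨k, d, e, κ, κ', a1, a2, a3, a4, a5, a6, rfl⟩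
    have hd : ‖d‖ ≤ 2 * C := by
      calc ‖d‖ = ‖(k + d) - k‖ := by simp
        _ ≤ ‖k + d‖ + ‖k‖ := norm_sub_le _ _
        _ ≤ 2 * C := by linarith [hC _ a1, hC _ a2]
    have he : ‖e‖ ≤ 2 * C := by
      calc ‖e‖ = ‖(k + e) - k‖ := by simp
        _ ≤ ‖k + e‖ + ‖k‖ := norm_sub_le _ _
        _ ≤ 2 * C := by linarith [hC _ a1, hC _ a3]
    have hk : ‖κ - κ'‖ ≤ 2 * C := (norm_sub_le _ _).trans (by linarith [hC _ a5, hC _ a6])
    have b1 : |cr d e| ≤ 2 * (2 * C) * (2 * C) := (hcr d e).trans (by gcongr)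
    have b2 : |cr d (κ - κ')| ≤ 2 * (2 * C) * (2 * C) := (hcr _ _).trans (by gcongr)
    linarith
  obtain ⟨r, hr, hball⟩ := Metric.isOpen_iff.1 isOpen_interior z0 hz0
  have hin : ∀ z : ℝ × ℝ, ‖z‖ < r → z0 + z ∈ K := by
    intro z hz
    apply interior_subset
    apply hball
    rw [mem_ball_iff_norm]; simpa using hz
  have hpos : r / 2 * (r / 2) ∈ {x | ∃ y ∈ S, x ≤ y} := by
    have n0 : ‖(0 : ℝ × ℝ)‖ < r := by simpa using hr
    refine ⟨_, ⟨z0, (r / 2, 0), (0, r / 2), z0, z0, ?_, ?_, ?_, ?_, ?_, ?_, rfl⟩, ?_⟩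
    · have := hin 0 n0; simpa using this
    · apply hin
      rw [Prod.norm_def]; simp [abs_of_pos hr]; linarith
    · apply hin
      rw [Prod.norm_def]; simp [abs_of_pos hr]; linarith
    · rw [add_assoc]
      apply hin
      rw [Prod.norm_def]; simp [abs_of_pos hr]; linarith
    · have := hin 0 n0; simpa using this
    · have := hin 0 n0; simpa using this
    · simp only [cr, sub_self, Prod.fst_zero, Prod.snd_zero]
      rw [mul_zero, sub_zero, abs_of_nonneg (by positivity : (0 : ℝ) ≤ r / 2 * (r / 2))]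
      simp
  obtain ⟨y0, hy0, hy0'⟩ := hpos
  refine ⟨sSup S, ?_, ?_, ?_⟩
  · have := le_csSup hbdd hy0
    have : 0 < r / 2 * (r / 2) := by positivity
    linarith
  · intro k d e κ κ' a1 a2 a3 a4 a5 a6
    exact le_csSup hbdd ⟨k, d, e, κ, κ', a1, a2, a3, a4, a5, a6, rfl⟩
  · intro G' hG'
    obtain ⟨x, ⟨k, d, e, κ, κ', a1, a2, a3, a4, a5, a6, rfl⟩, hx⟩ := exists_lt_of_lt_csSup ⟨y0, hy0⟩ hG'
    exact ⟨k, d, e, κ, κ', a1, a2, a3, a4, a5, a6, hx⟩

lemma le_liminf_of {K : Set (ℝ × ℝ)} (hK : ConvexDomain K) {k d e κ κ' : ℝ × ℝ}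
    (h1 : k ∈ K) (h2 : k + d ∈ K) (h3 : k + e ∈ K) (h4 : k + d + e ∈ K) (h5 : κ ∈ K) (h6 : κ' ∈ K)
    {θ : ℝ} (hθ : 0 ≤ θ) :
    ENNReal.ofReal (|cr d e| + θ * |cr d (κ - κ')|) ≤
      liminf (fun n : ℕ => Mn K θ n / n) atTop := by
  refine le_liminf_of_le (by isBoundedDefault) ?_
  filter_upwards [eventually_ge_atTop 1] with n hn
  obtain ⟨D, hD1, hD2, hD3, hD4⟩ := FN.strip_lower K hK.1 hK.2.1 h1 h2 h3 h4 h5 h6 θ hθ n hn
  apply le_div_of hn (by positivity)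
  rw [mul_comm]
  exact hD4.trans (le_Mn hD1 hD2 hD3)

theorem strict {K : Set (ℝ × ℝ)} (hK : ConvexDomain K) {θ : ℝ} (hθ : 1 / 4 < θ) :
    limsup (fun n : ℕ => Mn K 0 n / n) atTop < liminf (fun n : ℕ => Mn K θ n / n) atTop := by
  obtain ⟨G, hG0, hG, hopt⟩ := exists_G hK
  set t := 1 + 4 / 5 * (θ - 1 / 4) with ht
  have ht1 : 1 < t := by rw [ht]; linarith
  have hlt : G / t < G := div_lt_self hG0 ht1
  obtain ⟨k, d, e, κ, κ', a1, a2, a3, a4, a5, a6, hx⟩ := hopt (G / t) hlt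
  rw [div_lt_iff₀ (by linarith)] at hx
  have key : ∃ κ κ' : ℝ × ℝ, κ ∈ K ∧ κ' ∈ K ∧ G < |cr d e| + θ * |cr d (κ - κ')| := by
    by_cases hq : |cr d e| ≤ |cr d (κ - κ')|
    · refine ⟨κ, κ', a5, a6, ?_⟩
      have : (|cr d e| + |cr d (κ - κ')| / 4) * t ≤ |cr d e| + θ * |cr d (κ - κ')| := by
        rw [ht]
        nlinarith [abs_nonneg (cr d e), abs_nonneg (cr d (κ - κ'))]
      linarith
    · push Not at hq
      refine ⟨k + e, k, a3, a1, ?_⟩
      have e1 : k + e - k = e := by abel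
      rw [e1]
      have : (|cr d e| + |cr d (κ - κ')| / 4) * t ≤ |cr d e| + θ * |cr d e| := by
        have h1 : |cr d e| + |cr d (κ - κ')| / 4 ≤ 5 / 4 * |cr d e| := by linarith
        have h2 : (|cr d e| + |cr d (κ - κ')| / 4) * t ≤ 5 / 4 * |cr d e| * t :=
          mul_le_mul_of_nonneg_right h1 (by linarith)
        refine h2.trans (le_of_eq ?_)
        rw [ht]; ring
      linarith
  obtain ⟨κ, κ', b1, b2, b3⟩ := key
  calc limsup (fun n : ℕ => Mn K 0 n / n) atTop ≤ ENNReal.ofReal G := limsup_le hK hG hG0.le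
    _ < ENNReal.ofReal (|cr d e| + θ * |cr d (κ - κ')|) := by
        rw [ENNReal.ofReal_lt_ofReal_iff (by linarith)]; exact b3
    _ ≤ _ := le_liminf_of hK a1 a2 a3 a4 b1 b2 (by linarith)

lemma not_both {K : Set (ℝ × ℝ)} (hK : ConvexDomain K) {θ : ℝ} (hθ : 1 / 4 < θ) {T : ℝ≥0∞}
    (h1 : IsTheta K θ T) (h2 : IsTheta K 0 T) : False := by
  have := strict hK hθ
  rw [Tendsto.limsup_eq h2, Tendsto.liminf_eq h1] at this
  exact lt_irrefl _ this

lemma hexagon_domain : ConvexDomain hexagon := by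
  refine ⟨?_, ?_, ?_⟩
  · refine Metric.isCompact_of_isClosed_isBounded ?_ ?_
    · have c1 : IsClosed {z : ℝ × ℝ | |z.1| ≤ 1} := isClosed_le (by fun_prop) (by fun_prop)
      have c2 : IsClosed {z : ℝ × ℝ | |z.2| ≤ 1} := isClosed_le (by fun_prop) (by fun_prop)
      have c3 : IsClosed {z : ℝ × ℝ | |z.1 - z.2| ≤ 1} := isClosed_le (by fun_prop) (by fun_prop)
      exact c1.inter (c2.inter c3)
    · refine (Metric.isBounded_closedBall (x := (0 : ℝ × ℝ)) (r := 1)).subset ?_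
      rintro z ⟨h1, h2, h3⟩
      rw [mem_closedBall_zero_iff, Prod.norm_def]
      exact max_le h1 h2
  · intro x hx y hy a b ha hb hab
    obtain ⟨x1, x2, x3⟩ := hx
    obtain ⟨y1, y2, y3⟩ := hy
    rw [abs_le] at x1 x2 x3 y1 y2 y3
    refine ⟨?_, ?_, ?_⟩ <;> rw [abs_le] <;>
      simp only [Prod.fst_add, Prod.snd_add, Prod.smul_fst, Prod.smul_snd, smul_eq_mul] <;>
      constructor <;> nlinarith
  · refine ⟨0, ?_⟩
    rw [mem_interior]
    refine ⟨Metric.ball 0 (1 / 2), ?_, Metric.isOpen_ball, Metric.mem_ball_self (by norm_num)⟩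
    intro z hz
    rw [mem_ball_zero_iff, Prod.norm_def, max_lt_iff, Real.norm_eq_abs, Real.norm_eq_abs,
      abs_lt, abs_lt] at hz
    obtain ⟨⟨h1, h2⟩, h3, h4⟩ := hz
    refine ⟨?_, ?_, ?_⟩ <;> rw [abs_le] <;> constructor <;> linarith

lemma zero_mem_hexagon : (0 : ℝ × ℝ) ∈ hexagon := by simp [hexagon]

lemma Mn_mono {n : ℕ} : Mn hexagon 0 n ≤ Mn hexagon (1 / 4) n := by
  apply Mn_le
  intro D h1 h2 h3
  refine le_trans (measure_mono ?_) (le_Mn h1 h2 h3)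
  rw [Set.zero_smul_set ⟨0, zero_mem_hexagon⟩, add_zero]
  intro z hz
  exact ⟨z, hz, 0, ⟨0, zero_mem_hexagon, by simp⟩, by simp⟩

lemma hex_limits : IsTheta hexagon 0 3 ∧ IsTheta hexagon (1 / 4) 3 := by
  have hlow : ∀ ε : ℝ, 0 < ε → ε < 3 → ∀ᶠ n : ℕ in atTop,
      ENNReal.ofReal (3 - ε) ≤ Mn hexagon 0 n / n := by
    intro ε hε hε3
    obtain ⟨n0, hn0⟩ := FN.hex_lower ε hε
    filter_upwards [eventually_ge_atTop (max n0 1)] with n hn
    have hn1 : n0 ≤ n := le_trans (le_max_left _ _) hn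
    have hn2 : 1 ≤ n := le_trans (le_max_right _ _) hn
    obtain ⟨D, h1, h2, h3, h4⟩ := hn0 n hn1
    apply le_div_of hn2 (by linarith)
    refine h4.trans ?_
    have := le_Mn (θ := 0) h1 h2 h3
    have hne : H0.Nonempty := ⟨0, zero_mem_hexagon⟩
    have e : D + (0 : ℝ) • H0 = D := by
      rw [Set.zero_smul_set hne, add_zero]
    rw [e] at this
    exact this
  have hup : ∀ ε : ℝ, 0 < ε → ∀ᶠ n : ℕ in atTop,
      Mn hexagon (1 / 4) n / n ≤ ENNReal.ofReal (3 + ε) := by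
    intro ε hε
    obtain ⟨n0, hn0⟩ := FP.hex_upper ε hε
    filter_upwards [eventually_ge_atTop (max n0 1)] with n hn
    have hn1 : n0 ≤ n := le_trans (le_max_left _ _) hn
    have hn2 : 1 ≤ n := le_trans (le_max_right _ _) hn
    apply div_le_of hn2 (by positivity)
    exact Mn_le (fun D h1 h2 h3 => hn0 n hn1 D h1 h2 h3)
  have hmono : ∀ n : ℕ, Mn hexagon 0 n / n ≤ Mn hexagon (1 / 4) n / n := fun n =>
    ENNReal.div_le_div_right Mn_mono _
  have main : ∀ f : ℕ → ℝ≥0∞, (∀ n, Mn hexagon 0 n / n ≤ f n) →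
      (∀ n, f n ≤ Mn hexagon (1 / 4) n / n) → Tendsto f atTop (𝓝 3) := by
    intro f h1 h2
    rw [ENNReal.tendsto_nhds (by norm_num)]
    intro ε hε
    set δ : ℝ := min (ε.toReal) 1 with hδ
    by_cases hε' : ε = ⊤
    · subst hε'
      filter_upwards [hup 1 one_pos] with n hn
      refine ⟨by simp, by simp⟩
    · have hδ0 : 0 < δ := lt_min (ENNReal.toReal_pos hε.ne' hε') one_pos
      have hδ1 : δ ≤ 1 := min_le_right _ _
      have hδε : ENNReal.ofReal δ ≤ ε := by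
        rw [← ENNReal.ofReal_toReal hε']
        exact ENNReal.ofReal_le_ofReal (min_le_left _ _)
      filter_upwards [hup δ hδ0, hlow δ hδ0 (by linarith)] with n hn1 hn2
      constructor
      · rw [tsub_le_iff_right]
        calc (3 : ℝ≥0∞) = ENNReal.ofReal (3 - δ) + ENNReal.ofReal δ := by
              rw [← ENNReal.ofReal_add (by linarith) hδ0.le]; norm_num
          _ ≤ f n + ε := add_le_add (hn2.trans (h1 n)) hδε
      · calc f n ≤ ENNReal.ofReal (3 + δ) := (h2 n).trans hn1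
          _ = 3 + ENNReal.ofReal δ := by
              rw [ENNReal.ofReal_add (by norm_num) hδ0.le]; norm_num
          _ ≤ 3 + ε := by gcongr
  exact ⟨main _ (fun n => le_rfl) hmono, main _ hmono (fun n => le_rfl)⟩

lemma hex_critical : IsCriticalRadius hexagon (1 / 4) := by
  refine ⟨⟨by norm_num, 3, hex_limits.2, hex_limits.1⟩, ?_⟩
  rintro θ ⟨h0, T, h1, h2⟩
  by_contra h
  push Not at h
  exact not_both hexagon_domain h h1 h2

/-- The largest critical radius of planar convex domains is `1/4`. -/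
theorem result :
    IsGreatest {c : ℝ | ∃ K : Set (ℝ × ℝ), ConvexDomain K ∧ IsCriticalRadius K c} (1 / 4) ∧
    (ConvexDomain hexagon ∧ IsCriticalRadius hexagon (1 / 4)) ∧
    ∀ K : Set (ℝ × ℝ), ConvexDomain K → ∀ θ : ℝ, 1 / 4 < θ →
      limsup (fun n : ℕ => Mn K 0 n / n) atTop < liminf (fun n : ℕ => Mn K θ n / n) atTop := by
  refine ⟨⟨⟨hexagon, hexagon_domain, hex_critical⟩, ?_⟩, ⟨hexagon_domain, hex_critical⟩,
    fun K hK θ hθ => strict hK hθ⟩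
  rintro c ⟨K, hK, ⟨h0, T, h1, h2⟩, -⟩
  by_contra h
  push Not at h
  exact not_both hK h h1 h2

end Pool.Agent.Results.MP_eb03ca_co.MaxCriticalRadius
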